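import Mathlib

/-!
# The metric given by chains
-/

set_option autoImplicit false

namespace Pool.Agent.Helper63.GT

variable {P : Type} (R : P → P → ℝ → Prop)

/-- Chains from `x` to `y` of total length `s`, the steps are given by the relation `R`. -/
inductive Chn : P → P → ℝ → Prop
  | nil (x : P) : Chn x x 0
  | cons {x y z : P} {s t : ℝ} : R x y s → Chn y z t → Chn x z (s + t)

/-- The infimum of the lengths of the chains. -/
noncomputable def cdist (x y : P) : ℝ := sInf {s | Chn R x y s}

variable {R}

theorem Chn.single {x y : P} {s : ℝ} (h : R x y s) : Chn R x y s := by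
  have := Chn.cons h (Chn.nil y)
  rwa [add_zero] at this

theorem Chn.append {x y z : P} {s t : ℝ} (h : Chn R x y s) (h' : Chn R y z t) :
    Chn R x z (s + t) := by
  induction h with
  | nil x => rwa [zero_add]
  | cons h1 _ ih =>
    rw [add_assoc]
    exact Chn.cons h1 (ih h')

theorem Chn.symm (hs : ∀ x y s, R x y s → R y x s) {x y : P} {s : ℝ} (h : Chn R x y s) :
    Chn R y x s := by
  induction h with
  | nil x => exact Chn.nil x
  | cons h1 _ ih =>
    have := ih.append (Chn.single (hs _ _ _ h1))
    rwa [add_comm] at this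

theorem Chn.nonneg (h0 : ∀ x y s, R x y s → 0 ≤ s) {x y : P} {s : ℝ} (h : Chn R x y s) :
    0 ≤ s := by
  induction h with
  | nil x => exact le_rfl
  | cons h1 _ ih => exact add_nonneg (h0 _ _ _ h1) ih

section

variable (h0 : ∀ x y s, R x y s → 0 ≤ s)

include h0

theorem bdd (x y : P) : BddBelow {s | Chn R x y s} := ⟨0, fun _ h => h.nonneg h0⟩

theorem cdist_le_of {x y : P} {s : ℝ} (h : Chn R x y s) : cdist R x y ≤ s :=
  csInf_le (bdd h0 x y) h

theorem cdist_le {x y : P} {s : ℝ} (h : R x y s) : cdist R x y ≤ s :=
  cdist_le_of h0 (Chn.single h)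

end

theorem cdist_comm (hs : ∀ x y s, R x y s → R y x s) (x y : P) : cdist R x y = cdist R y x := by
  unfold cdist
  congr 1
  ext s
  exact ⟨fun h => h.symm hs, fun h => h.symm hs⟩

section

variable (ht : ∀ x y, ∃ s, R x y s)

include ht

theorem le_cdist {x y : P} {r : ℝ} (h : ∀ s, Chn R x y s → r ≤ s) : r ≤ cdist R x y := by
  obtain ⟨s, hs⟩ := ht x y
  exact le_csInf ⟨_, Chn.single hs⟩ fun s hs => h s hs

/-- Functions which do not increase by more than the length of a step. -/
theorem lip {φ : P → ℝ} (h : ∀ x y s, R x y s → φ x ≤ φ y + s) (x y : P) :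
    φ x ≤ φ y + cdist R x y := by
  have h1 : ∀ x y s, Chn R x y s → φ x ≤ φ y + s := by
    intro x y s hs
    induction hs with
    | nil x => rw [add_zero]
    | cons h2 _ ih =>
      have := h _ _ _ h2
      linarith
  have : φ x - φ y ≤ cdist R x y := le_cdist ht fun s hs => by
    have := h1 x y s hs
    linarith
  linarith

variable (h0 : ∀ x y s, R x y s → 0 ≤ s)

include h0

theorem cdist_nonneg (x y : P) : 0 ≤ cdist R x y := le_cdist ht fun _ h => h.nonneg h0

theorem cdist_self (x : P) : cdist R x x = 0 :=
  le_antisymm (cdist_le_of h0 (Chn.nil x)) (cdist_nonneg ht h0 x x)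

theorem cdist_triangle (x y z : P) : cdist R x z ≤ cdist R x y + cdist R y z := by
  have h1 : ∀ s, Chn R x y s → cdist R x z - s ≤ cdist R y z := fun s hs =>
    le_cdist ht fun t ht' => by
      have := cdist_le_of h0 (hs.append ht')
      linarith
  have h2 : cdist R x z - cdist R y z ≤ cdist R x y := le_cdist ht fun s hs => by
    have := h1 s hs
    linarith
  linarith

end

end Pool.Agent.Helper63.GT
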