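import Pool.Agent.Helper63.GT.Pts

/-!
# The metric of the realization and the charts at the vertices
-/

set_option autoImplicit false

namespace Pool.Agent.Helper63.GT

open Pool.Agent.Helper26.GT Real Pool.Agent.Helper3.FJ Pool.Agent.Helper3.FJ.Cpx

variable {V : Type} (D : PE V)

/-- The edges have lengths between `m` and `M`. -/
theorem PE.exists_len : ∃ m M : ℝ, 0 < m ∧ ∀ u v, D.U.adj u v → m ≤ D.ℓ u v ∧ D.ℓ u v ≤ M := by
  by_cases hne : {x : ℝ | ∃ u v, D.U.adj u v ∧ D.ℓ u v = x}.Nonempty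
  · obtain ⟨m, ⟨u, v, hm, rfl⟩, hmin⟩ := D.sh.exists_minimal hne
    obtain ⟨M, hM⟩ := D.sh.bddAbove
    refine ⟨D.ℓ u v, M, D.met.pos _ _ hm, fun a b hab => ⟨?_, hM ⟨a, b, hab, rfl⟩⟩⟩
    by_contra hlt
    push Not at hlt
    exact absurd (hmin ⟨a, b, hab, rfl⟩ hlt.le) (not_le.2 hlt)
  · refine ⟨1, 0, one_pos, fun u v h => ?_⟩
    exact absurd ⟨_, u, v, h, rfl⟩ hne

/-- A lower bound of the lengths of the edges. -/
noncomputable def PE.m : ℝ := D.exists_len.choose

/-- An upper bound of the lengths of the edges. -/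
noncomputable def PE.M : ℝ := D.exists_len.choose_spec.choose

theorem PE.m_pos : 0 < D.m := D.exists_len.choose_spec.choose_spec.1

theorem PE.m_le {u v : V} (h : D.U.adj u v) : D.m ≤ D.ℓ u v :=
  (D.exists_len.choose_spec.choose_spec.2 u v h).1

theorem PE.le_M {u v : V} (h : D.U.adj u v) : D.ℓ u v ≤ D.M :=
  (D.exists_len.choose_spec.choose_spec.2 u v h).2

/-- A lower bound of the sines of the angles. -/
noncomputable def PE.σ : ℝ := (exists_sin D.met D.sh).choose

theorem PE.σ_pos : 0 < D.σ := (exists_sin D.met D.sh).choose_spec.1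

theorem PE.σ_le_one : D.σ ≤ 1 := (exists_sin D.met D.sh).choose_spec.2.1

theorem PE.σ_le {v a b : V} (h : D.U.tri v a b) : D.σ ≤ sin (ang D.ℓ v a b) :=
  (exists_sin D.met D.sh).choose_spec.2.2 v a b h

/-- The Lipschitz constant of the barycentric coordinates. -/
noncomputable def PE.K : ℝ := 2 * D.m⁻¹ * D.σ⁻¹

theorem PE.K_pos : 0 < D.K := by
  have := D.m_pos
  have := D.σ_pos
  unfold PE.K
  positivity

/-- The scale. -/
noncomputable def PE.ρ : ℝ := 1 / (6 * D.K)

theorem PE.ρ_pos : 0 < D.ρ := by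
  have := D.K_pos
  unfold PE.ρ
  positivity

theorem PE.Kρ : D.K * D.ρ = 1 / 6 := by
  have := D.K_pos
  unfold PE.ρ
  field_simp

/-- The steps of the chains which define the distance. -/
def Stp (p q : Rz D) (s : ℝ) : Prop := RLoc D p q s ∨ s = D.ρ

variable {D}

theorem Stp.nonneg (p q : Rz D) (s : ℝ) (h : Stp D p q s) : 0 ≤ s := by
  rcases h with h | rfl
  · exact h.nonneg
  · exact D.ρ_pos.le

theorem Stp.symm (p q : Rz D) (s : ℝ) (h : Stp D p q s) : Stp D q p s := by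
  rcases h with h | rfl
  · exact Or.inl h.symm
  · exact Or.inr rfl

theorem Stp.total (p q : Rz D) : ∃ s, Stp D p q s := ⟨_, Or.inr rfl⟩

/-- The distance. -/
noncomputable def dst (p q : Rz D) : ℝ := cdist (Stp D) p q

theorem RLoc.dst_le {p q : Rz D} {s : ℝ} (h : RLoc D p q s) : dst p q ≤ s :=
  cdist_le Stp.nonneg (Or.inl h)

/-- The cone over the link of `v`. -/
abbrev Cn (D : PE V) (v : V) : Type := CPt (lkWG D.met D.link v)

open Classical in
/-- The chart at `v`. -/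
noncomputable def cht (v : V) (p : Rz D) : Cn D v where
  f a := if ClSt v p then p.f a.1 * D.ℓ v a.1 else 0
  nonneg a := by
    split_ifs
    · exact mul_nonneg (p.nonneg _) (D.met.pos _ _ a.2).le
    · exact le_rfl
  ex := by
    by_cases h : ClSt v p
    · simp only [if_pos h]
      obtain ⟨a, b, h1, h2⟩ := h
      rcases h1 with ⟨rfl, rfl⟩ | ⟨h1, rfl⟩ | h1
      · left
        intro c
        rw [h2 c.1 (D.ne c.2).symm (D.ne c.2).symm (D.ne c.2).symm, zero_mul]
      · right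
        refine ⟨⟨a, h1⟩, ⟨a, h1⟩, Or.inl rfl, fun c h3 _ => ?_⟩
        have : c.1 ≠ a := fun he => h3 (Subtype.ext he)
        simp only [h2 c.1 (D.ne c.2).symm this this, zero_mul]
      · right
        refine ⟨⟨a, D.U.tri_adj _ _ _ h1⟩, ⟨b, tri_adj2 h1⟩, Or.inr h1, fun c h3 h4 => ?_⟩
        simp only [h2 c.1 (D.ne c.2).symm (fun he => h3 (Subtype.ext he))
          (fun he => h4 (Subtype.ext he)), zero_mul]
    · simp only [if_neg h]
      exact Or.inl fun _ => trivial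

theorem cht_f {v : V} {p : Rz D} (h : ClSt v p) (a : LkV D.U v) :
    (cht v p).f a = p.f a.1 * D.ℓ v a.1 := if_pos h

/-- The sum of the barycentric coordinates different from the one at `v`. -/
noncomputable def lam (v : V) (z : Cn D v) : ℝ := ∑ᶠ a, z.f a / D.ℓ v a.1

theorem dst_triangle (p q r : Rz D) : dst p r ≤ dst p q + dst q r :=
  cdist_triangle Stp.total Stp.nonneg p q r

theorem dst_nonneg (p q : Rz D) : 0 ≤ dst p q := cdist_nonneg Stp.total Stp.nonneg p q

theorem dst_self (p : Rz D) : dst p p = 0 := cdist_self Stp.total Stp.nonneg p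

theorem dst_comm (p q : Rz D) : dst p q = dst q p := cdist_comm Stp.symm p q

theorem lam_on1 {v : V} {z : Cn D v} {a : LkV D.U v} (h : On z.f a a) :
    lam v z = z.f a / D.ℓ v a.1 := by
  unfold lam
  refine finsum_eq_single _ a fun c hc => ?_
  rw [h c hc hc, zero_div]

theorem lam_on2 {v : V} {z : Cn D v} {a b : LkV D.U v} (hab : a ≠ b) (h : On z.f a b) :
    lam v z = z.f a / D.ℓ v a.1 + z.f b / D.ℓ v b.1 := by
  classical
  unfold lam
  rw [finsum_eq_sum_of_support_subset (s := ({a, b} : Finset (LkV D.U v))), Finset.sum_pair hab]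
  intro c hc
  by_contra hcon
  simp only [Finset.coe_insert, Finset.coe_singleton, Set.mem_insert_iff,
    Set.mem_singleton_iff, not_or] at hcon
  refine hc ?_
  simp only [h c hcon.1 hcon.2, zero_div]

theorem lam_zero {v : V} {z : Cn D v} (h : ∀ a, z.f a = 0) : lam v z = 0 := by
  unfold lam
  simp only [h, zero_div, finsum_zero]

theorem abs_div_le {v : V} (a : LkV D.U v) (x : ℝ) : |x| / D.ℓ v a.1 ≤ D.m⁻¹ * |x| := by
  rw [div_eq_inv_mul]
  exact mul_le_mul_of_nonneg_right (inv_anti₀ D.m_pos (D.m_le a.2)) (abs_nonneg x)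

theorem lam_lip {v : V} (z w : Cn D v) : |lam v z - lam v w| ≤ D.K * dist z w := by
  have hm := inv_pos.2 D.m_pos
  have hσ := D.σ_pos
  have hσ' : 1 ≤ D.σ⁻¹ := (one_le_inv₀ hσ).2 D.σ_le_one
  refine lip_of_loc (F := lam v) (fun x y s hs => ?_) z w
  have hs0 := hs.nonneg
  rcases hs with ⟨a, h1, h2, rfl⟩ | ⟨a, b, hab, h1, h2, rfl⟩
  · rw [lam_on1 h1, lam_on1 h2, ← sub_div, abs_div, abs_of_pos (D.met.pos _ _ a.2)]
    refine (abs_div_le a _).trans ?_
    refine mul_le_mul_of_nonneg_right ?_ hs0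
    unfold PE.K
    nlinarith
  · have hne : a ≠ b := hab.ne
    rw [lam_on2 hne h1, lam_on2 hne h2]
    have e1 : x.f a / D.ℓ v a.1 + x.f b / D.ℓ v b.1 - (y.f a / D.ℓ v a.1 + y.f b / D.ℓ v b.1) =
        (x.f a - y.f a) / D.ℓ v a.1 + (x.f b - y.f b) / D.ℓ v b.1 := by ring
    rw [e1]
    refine (abs_add_le _ _).trans ?_
    rw [abs_div, abs_div, abs_of_pos (D.met.pos _ _ a.2), abs_of_pos (D.met.pos _ _ b.2)]
    have h3 := abs_div_le a (x.f a - y.f a)
    have h4 := abs_div_le b (x.f b - y.f b)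
    have hσab : D.σ ≤ sin (ang D.ℓ v a.1 b.1) := D.σ_le hab
    have h5 := abs_le_sqrt_qf hσ hσab (x.f a - y.f a) (x.f b - y.f b)
    have h6 := abs_le_sqrt_qf hσ hσab (x.f b - y.f b) (x.f a - y.f a)
    rw [qf_comm] at h6
    have h7 := mul_le_mul_of_nonneg_left h5 hm.le
    have h8 := mul_le_mul_of_nonneg_left h6 hm.le
    have e2 : D.K * √(qf ((lkWG D.met D.link v).w a b) (x.f a - y.f a) (x.f b - y.f b)) =
        D.m⁻¹ * (D.σ⁻¹ * √(qf (ang D.ℓ v a.1 b.1) (x.f a - y.f a) (x.f b - y.f b))) +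
        D.m⁻¹ * (D.σ⁻¹ * √(qf (ang D.ℓ v a.1 b.1) (x.f a - y.f a) (x.f b - y.f b))) := by
      unfold PE.K
      change 2 * D.m⁻¹ * D.σ⁻¹ * √(qf (ang D.ℓ v a.1 b.1) _ _) = _
      ring
    rw [e2]
    linarith

theorem on_cht {v : V} {p : Rz D} (hp : ClSt v p) {a b : LkV D.U v} (h : On3 p.f v a.1 b.1) :
    On (cht v p).f a b := fun c h3 h4 => by
  rw [cht_f hp, h c.1 (D.ne c.2).symm (fun he => h3 (Subtype.ext he))
    (fun he => h4 (Subtype.ext he)), zero_mul]

theorem on3_of_cht {v : V} {p : Rz D} (hp : ClSt v p) {a b : LkV D.U v}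
    (h : On (cht v p).f a b) : On3 p.f v a.1 b.1 := fun c h1 h2 h3 => by
  by_cases hc : D.U.adj v c
  · have := h ⟨c, hc⟩ (fun he => h2 (congrArg Subtype.val he)) (fun he => h3 (congrArg Subtype.val he))
    rw [cht_f hp] at this
    exact (mul_eq_zero.1 this).resolve_right (D.met.pos _ _ hc).ne'
  · exact hp.zero h1 hc

theorem cht_div {v : V} {p : Rz D} (hp : ClSt v p) (a : LkV D.U v) :
    (cht v p).f a / D.ℓ v a.1 = p.f a.1 := by
  rw [cht_f hp, mul_div_assoc, div_self (D.met.pos _ _ a.2).ne', mul_one]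

theorem lam_cht {v : V} {p : Rz D} (h : ClSt v p) : lam v (cht v p) = 1 - p.f v := by
  have hp := h
  obtain ⟨a, b, h1, h2⟩ := h
  rcases h1 with ⟨rfl, rfl⟩ | ⟨h1, rfl⟩ | h1
  · rw [lam_zero, p.s1 h2, sub_self]
    intro c
    rw [cht_f hp, h2 c.1 (D.ne c.2).symm (D.ne c.2).symm (D.ne c.2).symm, zero_mul]
  · have h3 := on_cht hp (a := ⟨a, h1⟩) (b := ⟨a, h1⟩) h2
    rw [lam_on1 h3, cht_div hp]
    linarith [p.s2 h1 h2]
  · have h3 := on_cht hp (a := ⟨a, D.U.tri_adj _ _ _ h1⟩) (b := ⟨b, tri_adj2 h1⟩) h2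
    rw [lam_on2 (fun he => D.ne (tri_adj3 h1) (congrArg Subtype.val he)) h3, cht_div hp,
      cht_div hp]
    linarith [p.s3 h1 h2]

theorem cht_inj {v : V} {p q : Rz D} (hp : ClSt v p) (hq : ClSt v q) (h : cht v p = cht v q) :
    p = q := by
  refine Rz.ext fun c => ?_
  by_cases hc : c = v
  · subst hc
    have e1 := lam_cht hp
    have e2 := lam_cht hq
    rw [h] at e1
    linarith
  · by_cases hc' : D.U.adj v c
    · have e1 := cht_div hp ⟨c, hc'⟩
      have e2 := cht_div hq ⟨c, hc'⟩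
      rw [h] at e1
      exact e1.symm.trans e2
    · rw [hp.zero hc hc', hq.zero hc hc']

open Classical in
theorem exists_cht {v : V} {z : Cn D v} (h : lam v z ≤ 1) :
    ∃ p : Rz D, ClSt v p ∧ p.f v = 1 - lam v z ∧ cht v p = z := by
  let f : V → ℝ := fun c => if c = v then 1 - lam v z else
    if h : D.U.adj v c then z.f ⟨c, h⟩ / D.ℓ v c else 0
  have hfv : f v = 1 - lam v z := if_pos rfl
  have hfa : ∀ a : LkV D.U v, f a.1 = z.f a / D.ℓ v a.1 := fun a => by
    change (if a.1 = v then 1 - lam v z else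
      if h : D.U.adj v a.1 then z.f ⟨a.1, h⟩ / D.ℓ v a.1 else 0) = _
    rw [if_neg (D.ne a.2).symm, dif_pos a.2]
  have hf0 : ∀ c, c ≠ v → ¬ D.U.adj v c → f c = 0 := fun c h1 h2 => by
    change (if c = v then 1 - lam v z else
      if h : D.U.adj v c then z.f ⟨c, h⟩ / D.ℓ v c else 0) = _
    rw [if_neg h1, dif_neg h2]
  have hnn : ∀ c, 0 ≤ f c := fun c => by
    by_cases h1 : c = v
    · subst h1
      rw [hfv]
      linarith
    · by_cases h2 : D.U.adj v c
      · rw [hfa ⟨c, h2⟩]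
        exact div_nonneg (z.nonneg _) (D.met.pos _ _ h2).le
      · rw [hf0 c h1 h2]
  have hon : ∀ a b : LkV D.U v, On z.f a b → On3 f v a.1 b.1 := fun a b h3 c h4 h5 h6 => by
    by_cases h7 : D.U.adj v c
    · rw [hfa ⟨c, h7⟩, h3 ⟨c, h7⟩ (fun he => h5 (congrArg Subtype.val he))
        (fun he => h6 (congrArg Subtype.val he)), zero_div]
    · exact hf0 c h4 h7
  have key : ∃ a b, Cel D.U v a b ∧ On3 f v a b ∧ ∑ᶠ c, f c = 1 := by
    rcases z.ex with h1 | ⟨a, b, h1, h2⟩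
    · have h3 : On3 f v v v := fun c h4 _ _ => by
        by_cases h7 : D.U.adj v c
        · rw [hfa ⟨c, h7⟩, h1, zero_div]
        · exact hf0 c h4 h7
      refine ⟨v, v, Or.inl ⟨rfl, rfl⟩, h3, ?_⟩
      rw [h3.sum1, hfv, lam_zero h1, sub_zero]
    · rcases h1 with rfl | h1
      · refine ⟨a.1, a.1, Or.inr (Or.inl ⟨a.2, rfl⟩), hon a a h2, ?_⟩
        rw [(hon a a h2).sum2 (D.ne a.2), hfv, hfa, lam_on1 h2]
        ring
      · have h1' : D.U.tri v a.1 b.1 := h1
        refine ⟨a.1, b.1, Or.inr (Or.inr h1'), hon a b h2, ?_⟩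
        rw [(hon a b h2).sum3 (D.ne a.2) (D.ne b.2) (D.ne (tri_adj3 h1')), hfv, hfa, hfa,
          lam_on2 h1.ne h2]
        ring
  obtain ⟨a, b, h1, h2, h3⟩ := key
  let p : Rz D := ⟨f, hnn, h3, ⟨v, a, b, h1, h2⟩⟩
  have hp : ClSt v p := ⟨a, b, h1, h2⟩
  refine ⟨p, hp, hfv, CPt.ext fun c => ?_⟩
  rw [cht_f hp]
  change f c.1 * _ = _
  rw [hfa, div_mul_cancel₀ _ (D.met.pos _ _ c.2).ne']

theorem RLoc.dist_cht {p q : Rz D} {s : ℝ} (h : RLoc D p q s) {v : V} (hv : p.f v ≠ 0) :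
    dist (cht v p) (cht v q) = s := by
  have hp : ClSt v p := clSt_of_ne hv
  have hq : ClSt v q := h.clSt hv
  rcases h.center hv with ⟨rfl, rfl⟩ | ⟨a, h1, h2, h3, rfl⟩ | ⟨a, b, h1, h2, h3, rfl⟩
  · exact dist_self _
  · refine CLoc.dist_eq (Or.inl ⟨⟨a, h1⟩, on_cht hp h2, on_cht hq h3, ?_⟩)
    rw [cht_f hp, cht_f hq, ← sub_mul, abs_mul, abs_of_pos (D.met.pos _ _ h1)]
  · refine CLoc.dist_eq (Or.inr ⟨⟨a, D.U.tri_adj _ _ _ h1⟩, ⟨b, tri_adj2 h1⟩, h1,
      on_cht hp h2, on_cht hq h3, ?_⟩)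
    have h4 : (p.f v - q.f v) + (p.f a - q.f a) + (p.f b - q.f b) = 0 := by
      linarith [p.s3 h1 h2, q.s3 h1 h3]
    have h5 := qf_bary D.met h1 h4
    rw [cht_f hp, cht_f hq, cht_f hp, cht_f hq, ← sub_mul, ← sub_mul]
    exact congrArg sqrt h5.symm

theorem rloc_of_cht {v : V} {p q : Rz D} (hp : ClSt v p) (hq : ClSt v q) {s : ℝ}
    (h : CLoc (cht v p) (cht v q) s) : RLoc D p q s := by
  rcases h with ⟨a, h1, h2, rfl⟩ | ⟨a, b, hab, h1, h2, rfl⟩
  · have := RLoc.edge a.2 (on3_of_cht hp h1) (on3_of_cht hq h2)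
    rwa [cht_f hp, cht_f hq, ← sub_mul, abs_mul, abs_of_pos (D.met.pos _ _ a.2)]
  · have hab' : D.U.tri v a.1 b.1 := hab
    have h3 := on3_of_cht hp h1
    have h3' := on3_of_cht hq h2
    have := RLoc.tri hab' h3 h3'
    have h4 : (p.f v - q.f v) + (p.f a.1 - q.f a.1) + (p.f b.1 - q.f b.1) = 0 := by
      linarith [p.s3 hab' h3, q.s3 hab' h3']
    have h5 := qf_bary D.met hab' h4
    rw [cht_f hp, cht_f hq, cht_f hp, cht_f hq, ← sub_mul, ← sub_mul]
    have h6 : √(qf ((lkWG D.met D.link v).w a b) ((p.f a.1 - q.f a.1) * D.ℓ v a.1)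
        ((p.f b.1 - q.f b.1) * D.ℓ v b.1)) =
        √(Q3 D.ℓ v a.1 b.1 fun c => p.f c - q.f c) := congrArg sqrt h5
    rwa [h6]

theorem le_rho {x : ℝ} (h : 1 / 6 ≤ D.K * x) : D.ρ ≤ x := by
  rw [← D.Kρ] at h
  exact le_of_mul_le_mul_left h D.K_pos

open Classical in
/-- **The charts, first part.** -/
theorem chart_lt {v : V} {p q : Rz D} (hp : 1 / 6 ≤ p.f v) (h : dst p q < D.ρ) :
    0 < q.f v ∧ dist (cht v p) (cht v q) ≤ dst p q := by
  have hpv : 0 < p.f v := by linarith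
  have hρ := D.ρ_pos
  have hpc : ClSt v p := clSt_of_ne hpv.ne'
  let φ : Rz D → ℝ := fun r => if 0 < r.f v then min D.ρ (dist (cht v p) (cht v r)) else D.ρ
  have h0 : ∀ r, 0 ≤ φ r := fun r => by
    change 0 ≤ if 0 < r.f v then min D.ρ (dist (cht v p) (cht v r)) else D.ρ
    split_ifs
    · exact le_min hρ.le dist_nonneg
    · exact hρ.le
  have h1 : ∀ r, φ r ≤ D.ρ := fun r => by
    change (if 0 < r.f v then min D.ρ (dist (cht v p) (cht v r)) else D.ρ) ≤ D.ρ
    split_ifs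
    · exact min_le_left _ _
    · exact le_rfl
  have hpos : ∀ r, 0 < r.f v → φ r = min D.ρ (dist (cht v p) (cht v r)) := fun r hr => if_pos hr
  have hneg : ∀ r, ¬ 0 < r.f v → φ r = D.ρ := fun r hr => if_neg hr
  have key : ∀ x y s, Stp D x y s → φ x ≤ φ y + s := by
    intro x y s hs
    rcases hs with hs | rfl
    · have hs0 := hs.nonneg
      by_cases hy : 0 < y.f v
      · by_cases hx : 0 < x.f v
        · rw [hpos x hx, hpos y hy]
          have h2 := hs.dist_cht hx.ne'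
          have h3 := dist_triangle (cht v p) (cht v y) (cht v x)
          rw [dist_comm (cht v y), h2] at h3
          rcases min_cases D.ρ (dist (cht v p) (cht v y)) with ⟨h4, -⟩ | ⟨h4, -⟩
          · rw [h4]
            exact (min_le_left _ _).trans (by linarith)
          · rw [h4]
            exact (min_le_right _ _).trans h3
        · rw [hneg x hx, hpos y hy]
          have hx0 : x.f v = 0 := le_antisymm (not_lt.1 hx) (x.nonneg v)
          have h2 := hs.symm.dist_cht hy.ne'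
          have h3 := hs.symm.clSt hy.ne'
          have h4 := lam_lip (cht v x) (cht v p)
          rw [lam_cht h3, lam_cht hpc, hx0] at h4
          have h5 := (le_abs_self _).trans h4
          have h6 : D.ρ ≤ dist (cht v x) (cht v p) := le_rho (by linarith)
          have h7 := dist_triangle (cht v p) (cht v y) (cht v x)
          rw [h2, dist_comm (cht v p) (cht v x)] at h7
          rcases min_cases D.ρ (dist (cht v p) (cht v y)) with ⟨h8, -⟩ | ⟨h8, -⟩
          · rw [h8]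
            linarith
          · rw [h8]
            linarith
      · rw [hneg y hy]
        linarith [h1 x]
    · linarith [h1 x, h0 y]
  have h2 := lip Stp.total key q p
  rw [hpos p hpv, dist_self, min_eq_right hρ.le, zero_add] at h2
  have h3 : cdist (Stp D) q p = dst p q := dst_comm q p
  rw [h3] at h2
  have h4 : 0 < q.f v := by
    by_contra hcon
    rw [hneg q hcon] at h2
    linarith
  refine ⟨h4, ?_⟩
  rw [hpos q h4] at h2
  rcases min_cases D.ρ (dist (cht v p) (cht v q)) with ⟨h5, -⟩ | ⟨h5, -⟩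
  · linarith
  · linarith

theorem lam_lt {v : V} {p : Rz D} (hp : 1 / 6 ≤ p.f v) {z : Cn D v}
    (h : dist (cht v p) z < D.ρ) : lam v z < 1 := by
  have hpc : ClSt v p := clSt_of_ne (by linarith : (0 : ℝ) < p.f v).ne'
  have h1 := lam_lip z (cht v p)
  rw [lam_cht hpc] at h1
  have h2 := (le_abs_self _).trans h1
  have h3 := mul_lt_mul_of_pos_left h D.K_pos
  rw [D.Kρ] at h3
  rw [dist_comm] at h2
  linarith

/-- **The charts, second part.** -/
theorem chart_surj {v : V} {p : Rz D} (hp : 1 / 6 ≤ p.f v) {z : Cn D v}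
    (h : dist (cht v p) z < D.ρ) :
    ∃ q : Rz D, 0 < q.f v ∧ cht v q = z ∧ dst p q ≤ dist (cht v p) z := by
  have hpv : 0 < p.f v := by linarith
  have key : ∀ {x y : Cn D v} {t : ℝ}, CCh x y t → ∀ r : Rz D, ClSt v r → 0 < r.f v →
      cht v r = x → dist (cht v p) x + t < D.ρ →
      ∃ q : Rz D, 0 < q.f v ∧ cht v q = y ∧ Chn (Stp D) r q t := by
    intro x y t hc
    induction hc with
    | nil x => exact fun r _ h1 h2 _ => ⟨r, h1, h2, Chn.nil r⟩
    | @cons x y z s t h1 h2 ih =>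
      intro r h3 h4 h5 h6
      have h7 := h2.dist_le
      have h7' : 0 ≤ t := dist_nonneg.trans h7
      have h8 := dist_triangle (cht v p) x y
      rw [h1.dist_eq] at h8
      have h9 : dist (cht v p) y + t < D.ρ := by linarith
      have h10 := lam_lt hp (by linarith : dist (cht v p) y < D.ρ)
      obtain ⟨r', h11, h12, h13⟩ := exists_cht h10.le
      subst h5
      subst h13
      obtain ⟨q, h14, h15, h16⟩ := ih r' h11 (by rw [h12]; linarith) rfl h9
      exact ⟨q, h14, h15, Chn.cons (Or.inl (rloc_of_cht h3 h11 h1)) h16⟩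
  obtain ⟨q, h1, h2, h3⟩ := key (exists_cch (cht v p) z) p (clSt_of_ne hpv.ne') hpv rfl
    (by rw [dist_self, zero_add]; exact h)
  exact ⟨q, h1, h2, cdist_le_of Stp.nonneg h3⟩

/-- Nearby points have the same distance in the chart. -/
theorem chart_eq {v : V} {p q : Rz D} (hp : 1 / 6 ≤ p.f v) (h : dst p q < D.ρ) :
    dist (cht v p) (cht v q) = dst p q := by
  obtain ⟨h1, h2⟩ := chart_lt hp h
  obtain ⟨q', h3, h4, h5⟩ := chart_surj hp (h2.trans_lt h)
  have h6 := cht_inj (clSt_of_ne h3.ne') (clSt_of_ne h1.ne') h4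
  rw [h6] at h5
  exact le_antisymm h2 h5

/-- Nearby points in the chart. -/
theorem chart_eq' {v : V} {p q : Rz D} (hp : 1 / 6 ≤ p.f v) (hq : ClSt v q)
    (h : dist (cht v p) (cht v q) < D.ρ) : dst p q = dist (cht v p) (cht v q) := by
  obtain ⟨q', h3, h4, h5⟩ := chart_surj hp h
  have h6 := cht_inj (clSt_of_ne h3.ne') hq h4
  rw [h6] at h5
  exact (chart_eq hp (h5.trans_lt h)).symm

/-- The barycentric coordinates are Lipschitz functions at the scale `ρ`. -/
theorem coord_lip {v : V} {p q : Rz D} (hp : 1 / 6 ≤ p.f v) (h : dst p q < D.ρ) :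
    |p.f v - q.f v| ≤ D.K * dst p q := by
  obtain ⟨h1, h2⟩ := chart_lt hp h
  have h3 := lam_lip (cht v p) (cht v q)
  rw [lam_cht (clSt_of_ne (by linarith : (0 : ℝ) < p.f v).ne'), lam_cht (clSt_of_ne h1.ne'),
    chart_eq hp h, abs_sub_comm] at h3
  rwa [show 1 - q.f v - (1 - p.f v) = p.f v - q.f v by ring] at h3

theorem eq_of_dst {p q : Rz D} (h : dst p q = 0) : p = q := by
  obtain ⟨v, hv⟩ := p.exists_third
  have h1 : 1 / 6 ≤ p.f v := by linarith
  have h2 : dst p q < D.ρ := by rw [h]; exact D.ρ_pos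
  obtain ⟨h3, h4⟩ := chart_lt h1 h2
  rw [h] at h4
  have h5 : cht v p = cht v q := dist_eq_zero.1 (le_antisymm h4 dist_nonneg)
  exact cht_inj (clSt_of_ne (by linarith : (0 : ℝ) < p.f v).ne') (clSt_of_ne h3.ne') h5

noncomputable instance instMS : MetricSpace (Rz D) where
  dist := dst
  dist_self := dst_self
  dist_comm := dst_comm
  dist_triangle := dst_triangle
  eq_of_dist_eq_zero := eq_of_dst

theorem dist_def (p q : Rz D) : dist p q = dst p q := rfl

end Pool.Agent.Helper63.GT
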