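import Pool.Agent.Helper26.GT.Lk
import Pool.Agent.Helper63.GT.ChainM

/-!
# The points of the realization of a piecewise Euclidean complex
-/

set_option autoImplicit false

namespace Pool.Agent.Helper63.GT

open Pool.Agent.Helper26.GT Real Pool.Agent.Helper3.FJ Pool.Agent.Helper3.FJ.Cpx

/-- Piecewise Euclidean complexes of dimension two with finitely many shapes and with the link
condition. -/
structure PE (V : Type) where
  U : Cpx V
  ℓ : V → V → ℝ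
  met : U.Metric ℓ
  link : U.LinkCond ℓ
  sh : Pool.Agent.Helper13.GT.Shapes U ℓ

variable {V : Type}

/-- `f` vanishes outside `v`, `a` and `b`. -/
def On3 (f : V → ℝ) (v a b : V) : Prop := ∀ c, c ≠ v → c ≠ a → c ≠ b → f c = 0

theorem On3.rot {f : V → ℝ} {v a b : V} (h : On3 f v a b) : On3 f a b v :=
  fun c h1 h2 h3 => h c h3 h1 h2

theorem On3.flip {f : V → ℝ} {v a b : V} (h : On3 f v a b) : On3 f a v b :=
  fun c h1 h2 h3 => h c h2 h1 h3

theorem On3.sub {f g : V → ℝ} {v a b : V} (h : On3 f v a b) (h' : On3 g v a b) :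
    On3 (fun c => f c - g c) v a b := fun c h1 h2 h3 => by
  simp only [h c h1 h2 h3, h' c h1 h2 h3, sub_self]

open Classical in
theorem On3.finsum {f : V → ℝ} {v a b : V} (h : On3 f v a b) :
    ∑ᶠ c, f c = ∑ c ∈ ({v, a, b} : Finset V), f c := by
  refine finsum_eq_sum_of_support_subset f ?_
  intro c hc
  by_contra hcon
  simp only [Finset.coe_insert, Finset.coe_singleton, Set.mem_insert_iff,
    Set.mem_singleton_iff, not_or] at hcon
  exact hc (h c hcon.1 hcon.2.1 hcon.2.2)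

theorem On3.sum1 {f : V → ℝ} {v : V} (h : On3 f v v v) : ∑ᶠ c, f c = f v := by
  rw [h.finsum]
  simp

theorem On3.sum2 {f : V → ℝ} {v a : V} (h : On3 f v a a) (hva : v ≠ a) :
    ∑ᶠ c, f c = f v + f a := by
  classical
  rw [h.finsum, Finset.sum_insert (by simpa using hva)]
  simp

theorem On3.sum3 {f : V → ℝ} {v a b : V} (h : On3 f v a b) (hva : v ≠ a) (hvb : v ≠ b)
    (hab : a ≠ b) : ∑ᶠ c, f c = f v + f a + f b := by
  classical
  rw [h.finsum, Finset.sum_insert (by simp [hva, hvb]), Finset.sum_insert (by simpa using hab),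
    Finset.sum_singleton, add_assoc]

/-- The closed cells with the vertex `v`: a vertex, an edge or a triangle. -/
def Cel (U : Cpx V) (v a b : V) : Prop := (a = v ∧ b = v) ∨ (U.adj v a ∧ a = b) ∨ U.tri v a b

/-- The points of the realization, in barycentric coordinates. -/
structure Rz (D : PE V) where
  f : V → ℝ
  nonneg : ∀ a, 0 ≤ f a
  sum : ∑ᶠ a, f a = 1
  ex : ∃ v a b, Cel D.U v a b ∧ On3 f v a b

variable {D : PE V}

theorem Rz.ext {p q : Rz D} (h : ∀ a, p.f a = q.f a) : p = q := by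
  cases p
  cases q
  congr
  exact funext h

theorem PE.ne (D : PE V) {u v : V} (h : D.U.adj u v) : u ≠ v := by
  rintro rfl
  exact D.U.adj_irrefl _ h

theorem Rz.s1 (p : Rz D) {v : V} (h : On3 p.f v v v) : p.f v = 1 := by
  rw [← p.sum, h.sum1]

theorem Rz.s2 (p : Rz D) {v a : V} (hva : D.U.adj v a) (h : On3 p.f v a a) :
    p.f v + p.f a = 1 := by
  rw [← p.sum, h.sum2 (D.ne hva)]

theorem Rz.s3 (p : Rz D) {v a b : V} (ht : D.U.tri v a b) (h : On3 p.f v a b) :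
    p.f v + p.f a + p.f b = 1 := by
  rw [← p.sum, h.sum3 (D.ne (D.U.tri_adj _ _ _ ht)) (D.ne (tri_adj2 ht)) (D.ne (tri_adj3 ht))]

/-- The square of the norm of the vector `h` in a triangle. -/
noncomputable def Q3 (ℓ : V → V → ℝ) (v a b : V) (h : V → ℝ) : ℝ :=
  -(h v * h a * ℓ v a ^ 2 + h v * h b * ℓ v b ^ 2 + h a * h b * ℓ a b ^ 2)

theorem Q3.rot (D : PE V) (v a b : V) (h : V → ℝ) : Q3 D.ℓ a b v h = Q3 D.ℓ v a b h := by
  unfold Q3
  rw [D.met.symm a v, D.met.symm b v]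
  ring

theorem Q3.neg (ℓ : V → V → ℝ) (v a b : V) (f g : V → ℝ) :
    Q3 ℓ v a b (fun c => f c - g c) = Q3 ℓ v a b (fun c => g c - f c) := by
  unfold Q3
  ring

/-- `p` and `q` lie in a common closed cell and have distance `s` in it. -/
def RLoc (D : PE V) (p q : Rz D) (s : ℝ) : Prop :=
  (p = q ∧ s = 0) ∨
  (∃ v a, D.U.adj v a ∧ On3 p.f v a a ∧ On3 q.f v a a ∧ s = |p.f a - q.f a| * D.ℓ v a) ∨
  ∃ v a b, D.U.tri v a b ∧ On3 p.f v a b ∧ On3 q.f v a b ∧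
    s = √(Q3 D.ℓ v a b fun c => p.f c - q.f c)

theorem RLoc.refl (p : Rz D) : RLoc D p p 0 := Or.inl ⟨rfl, rfl⟩

theorem RLoc.edge {p q : Rz D} {v a : V} (h1 : D.U.adj v a) (h2 : On3 p.f v a a)
    (h3 : On3 q.f v a a) : RLoc D p q (|p.f a - q.f a| * D.ℓ v a) :=
  Or.inr (Or.inl ⟨v, a, h1, h2, h3, rfl⟩)

theorem RLoc.tri {p q : Rz D} {v a b : V} (h1 : D.U.tri v a b) (h2 : On3 p.f v a b)
    (h3 : On3 q.f v a b) : RLoc D p q (√(Q3 D.ℓ v a b fun c => p.f c - q.f c)) :=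
  Or.inr (Or.inr ⟨v, a, b, h1, h2, h3, rfl⟩)

theorem RLoc.nonneg {p q : Rz D} {s : ℝ} (h : RLoc D p q s) : 0 ≤ s := by
  rcases h with ⟨-, rfl⟩ | ⟨v, a, h1, -, -, rfl⟩ | ⟨v, a, b, -, -, -, rfl⟩
  · exact le_rfl
  · exact mul_nonneg (abs_nonneg _) (D.met.pos _ _ h1).le
  · exact sqrt_nonneg _

theorem RLoc.symm {p q : Rz D} {s : ℝ} (h : RLoc D p q s) : RLoc D q p s := by
  rcases h with ⟨rfl, rfl⟩ | ⟨v, a, h1, h2, h3, rfl⟩ | ⟨v, a, b, h1, h2, h3, rfl⟩
  · exact RLoc.refl _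
  · rw [abs_sub_comm]
    exact RLoc.edge h1 h3 h2
  · rw [Q3.neg]
    exact RLoc.tri h1 h3 h2

/-- Two points in a common closed cell with the vertex `v`. -/
theorem RLoc.center {p q : Rz D} {s : ℝ} (h : RLoc D p q s) {v : V} (hv : p.f v ≠ 0) :
    (p = q ∧ s = 0) ∨
    (∃ a, D.U.adj v a ∧ On3 p.f v a a ∧ On3 q.f v a a ∧ s = |p.f a - q.f a| * D.ℓ v a) ∨
    ∃ a b, D.U.tri v a b ∧ On3 p.f v a b ∧ On3 q.f v a b ∧
      s = √(Q3 D.ℓ v a b fun c => p.f c - q.f c) := by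
  rcases h with h | ⟨v', a', h1, h2, h3, rfl⟩ | ⟨v', a', b', h1, h2, h3, rfl⟩
  · exact Or.inl h
  · right
    left
    by_cases h4 : v = v'
    · subst h4
      exact ⟨a', h1, h2, h3, rfl⟩
    · by_cases h5 : v = a'
      · subst h5
        refine ⟨v', D.U.adj_symm _ _ h1, fun c h6 h7 _ => h2 c h7 h6 h6,
          fun c h6 h7 _ => h3 c h7 h6 h6, ?_⟩
        have e1 := p.s2 h1 h2
        have e2 := q.s2 h1 h3
        rw [D.met.symm v v', show p.f v' - q.f v' = -(p.f v - q.f v) by linarith, abs_neg]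
      · exact absurd (h2 v h4 h5 h5) hv
  · right
    right
    by_cases h4 : v = v'
    · subst h4
      exact ⟨a', b', h1, h2, h3, rfl⟩
    · by_cases h5 : v = a'
      · subst h5
        exact ⟨b', v', D.U.tri_rot _ _ _ h1, h2.rot, h3.rot, by rw [← Q3.rot D v' v b']⟩
      · by_cases h6 : v = b'
        · subst h6
          exact ⟨v', a', D.U.tri_rot _ _ _ (D.U.tri_rot _ _ _ h1), h2.rot.rot, h3.rot.rot, by
            rw [← Q3.rot D v v' a']⟩
        · exact absurd (h2 v h4 h5 h6) hv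

/-- The closed star of `v`. -/
def ClSt (v : V) (p : Rz D) : Prop := ∃ a b, Cel D.U v a b ∧ On3 p.f v a b

theorem clSt_of_ne {v : V} {p : Rz D} (h : p.f v ≠ 0) : ClSt v p := by
  obtain ⟨v', a', b', h1, h2⟩ := p.ex
  by_cases h4 : v = v'
  · subst h4
    exact ⟨a', b', h1, h2⟩
  by_cases h5 : v = a'
  · subst h5
    rcases h1 with ⟨h1, -⟩ | ⟨h1, h3⟩ | h1
    · exact absurd h1 h4
    · subst h3
      exact ⟨v', v', Or.inr (Or.inl ⟨D.U.adj_symm _ _ h1, rfl⟩), fun c h6 h7 _ => h2 c h7 h6 h6⟩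
    · exact ⟨b', v', Or.inr (Or.inr (D.U.tri_rot _ _ _ h1)), h2.rot⟩
  by_cases h6 : v = b'
  · subst h6
    rcases h1 with ⟨-, h1⟩ | ⟨h1, h3⟩ | h1
    · exact absurd h1 h4
    · exact absurd h3.symm h5
    · exact ⟨v', a', Or.inr (Or.inr (D.U.tri_rot _ _ _ (D.U.tri_rot _ _ _ h1))), h2.rot.rot⟩
  exact absurd (h2 v h4 h5 h6) h

theorem ClSt.zero {v : V} {p : Rz D} (h : ClSt v p) {c : V} (h1 : c ≠ v)
    (h2 : ¬ D.U.adj v c) : p.f c = 0 := by
  obtain ⟨a, b, h3, h4⟩ := h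
  rcases h3 with ⟨rfl, rfl⟩ | ⟨h3, rfl⟩ | h3
  · exact h4 c h1 h1 h1
  · refine h4 c h1 ?_ ?_ <;> rintro rfl <;> exact h2 h3
  · refine h4 c h1 ?_ ?_
    · rintro rfl
      exact h2 (D.U.tri_adj _ _ _ h3)
    · rintro rfl
      exact h2 (tri_adj2 h3)

theorem RLoc.clSt {p q : Rz D} {s : ℝ} (h : RLoc D p q s) {v : V} (hv : p.f v ≠ 0) :
    ClSt v q := by
  rcases h.center hv with ⟨rfl, -⟩ | ⟨a, h1, -, h2, -⟩ | ⟨a, b, h1, -, h2, -⟩
  · exact clSt_of_ne hv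
  · exact ⟨a, a, Or.inr (Or.inl ⟨h1, rfl⟩), h2⟩
  · exact ⟨a, b, Or.inr (Or.inr h1), h2⟩

/-- One of the coordinates is large. -/
theorem Rz.exists_third (p : Rz D) : ∃ v, 1 / 3 ≤ p.f v := by
  obtain ⟨v, a, b, h1, h2⟩ := p.ex
  rcases h1 with ⟨rfl, rfl⟩ | ⟨h1, rfl⟩ | h1
  · exact ⟨b, by rw [p.s1 h2]; norm_num⟩
  · have := p.s2 h1 h2
    by_contra hcon
    push Not at hcon
    have e1 := hcon v
    have e2 := hcon a
    linarith
  · have := p.s3 h1 h2
    by_contra hcon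
    push Not at hcon
    have e1 := hcon v
    have e2 := hcon a
    have e3 := hcon b
    linarith

theorem Rz.le_one (p : Rz D) (c : V) : p.f c ≤ 1 := by
  by_cases hc : p.f c = 0
  · rw [hc]
    norm_num
  obtain ⟨a, b, h1, h2⟩ := clSt_of_ne hc
  have ha := p.nonneg a
  have hb := p.nonneg b
  rcases h1 with ⟨rfl, rfl⟩ | ⟨h1, rfl⟩ | h1
  · rw [p.s1 h2]
  · linarith [p.s2 h1 h2]
  · linarith [p.s3 h1 h2]

end Pool.Agent.Helper63.GT
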